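import Mathlib
import Pool.Agent.H45.R3.Stmts

/-!
# R3: modules MOM, DEGA, DEGB
-/

set_option autoImplicit false

open Finset Polynomial

namespace Pool.Agent.H15.R3

variable {p : ℕ} [Fact p.Prime]

/-- sum of a monomial -/
theorem sum_pow_eq (i : ℕ) (h : i ≤ p - 1) : ∑ y : ZMod p, y ^ i = if i = p - 1 then -1 else 0 := by
  have hp : p.Prime := Fact.out
  split_ifs with hi
  · subst hi
    have h2 : ∀ y : ZMod p, y ^ (p - 1) = if y = 0 then 0 else 1 := by
      intro y
      split_ifs with hy
      · rw [hy, zero_pow]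
        have := hp.two_le
        omega
      · exact ZMod.pow_card_sub_one_eq_one hy
    have h3 : ∑ y : ZMod p, y ^ (p - 1) = ∑ y : ZMod p, ((1 : ZMod p) - if y = 0 then 1 else 0) := by
      refine Finset.sum_congr rfl fun y _ => ?_
      rw [h2]
      split_ifs <;> ring
    rw [h3, Finset.sum_sub_distrib, Finset.sum_ite_eq']
    simp
  · have h4 := FiniteField.sum_pow_lt_card_sub_one (K := ZMod p) i (by
      rw [ZMod.card]; omega)
    exact h4

/-- the sum of the values of a polynomial of degree at most `p - 1` -/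
theorem sum_eval (R : Polynomial (ZMod p)) (h : R.natDegree ≤ p - 1) :
    ∑ y : ZMod p, R.eval y = - R.coeff (p - 1) := by
  have hp : p.Prime := Fact.out
  have h1 : ∀ y : ZMod p, R.eval y = ∑ i ∈ range (p - 1 + 1), R.coeff i * y ^ i := fun y =>
    Polynomial.eval_eq_sum_range' (by omega) y
  simp_rw [h1]
  rw [Finset.sum_comm]
  simp_rw [← Finset.mul_sum]
  have h2 : ∀ i ∈ range (p - 1 + 1), R.coeff i * ∑ y : ZMod p, y ^ i = if i = p - 1 then - R.coeff (p - 1) else 0 := by
    intro i hi
    rw [mem_range] at hi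
    rw [sum_pow_eq i (by omega)]
    split_ifs with h3
    · rw [h3]; ring
    · ring
  rw [Finset.sum_congr rfl h2, Finset.sum_ite_eq']
  simp

/-- interpolation -/
theorem interp (f : ZMod p → ZMod p) : ∃ P : Polynomial (ZMod p), (∀ y, f y = P.eval y) ∧ P.natDegree ≤ p - 1 := by
  have hp : p.Prime := Fact.out
  refine ⟨Lagrange.interpolate univ id f, fun y => ?_, ?_⟩
  · have := Lagrange.eval_interpolate_at_node (s := univ) (v := id) f (i := y) (fun a _ b _ h => h) (mem_univ y)
    exact this.symm
  · have := Lagrange.degree_interpolate_le (s := univ) (v := id) f (fun (a : ZMod p) _ b _ h => h)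
    rw [Finset.card_univ, ZMod.card] at this
    exact Polynomial.natDegree_le_of_degree_le this

/-- the key: moments detect the degree -/
theorem key {f : ZMod p → ZMod p} {P : Polynomial (ZMod p)} (hP : ∀ y, f y = P.eval y) (a b : ℕ)
    (h0 : P ≠ 0) (hab : a + b * P.natDegree = p - 1) : ∑ y, y ^ a * (f y) ^ b ≠ 0 := by
  have h1 : ∀ y, y ^ a * (f y) ^ b = (X ^ a * P ^ b).eval y := by
    intro y
    rw [hP]; simp
  simp_rw [h1]
  have h2 : (X ^ a * P ^ b).natDegree = p - 1 := by
    rw [Polynomial.natDegree_mul (pow_ne_zero _ Polynomial.X_ne_zero) (pow_ne_zero _ h0), Polynomial.natDegree_pow,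
      Polynomial.natDegree_pow, Polynomial.natDegree_X, ← hab]
    ring
  rw [sum_eval _ h2.le]
  have h3 : (X ^ a * P ^ b).coeff (p - 1) = P.leadingCoeff ^ b := by
    rw [← h2, Polynomial.coeff_natDegree, Polynomial.leadingCoeff_mul, Polynomial.leadingCoeff_pow,
      Polynomial.leadingCoeff_pow, Polynomial.leadingCoeff_X, one_pow, one_mul]
  rw [h3]
  exact neg_ne_zero.mpr (pow_ne_zero _ (Polynomial.leadingCoeff_ne_zero.mpr h0))

/-- **DEGB** -/
theorem degb : Pool.Agent.H45.R3.DEGB := by
  intro p _ hp2 f hf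
  have hp : p.Prime := Fact.out
  obtain ⟨P, hP, hd⟩ := interp f
  by_cases h2 : P.natDegree ≤ 1
  · obtain ⟨s, c, hsc⟩ := Polynomial.exists_eq_X_add_C_of_natDegree_le_one h2
    refine ⟨s, c, fun y => ?_⟩
    rw [hP, hsc]; simp
  · exfalso
    have hd2 : 2 ≤ P.natDegree := by omega
    have h0 : P ≠ 0 := by
      intro h; rw [h] at hd2; simp at hd2
    have hodd : (p - 1) % 2 = 0 := by
      have := hp.eq_two_or_odd
      omega
    set d := P.natDegree with hdd
    have hdiv := Nat.div_add_mod (p - 1) d
    have hmod := Nat.mod_lt (p - 1) (show 0 < d by omega)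
    have hb1 : 1 ≤ (p - 1) / d := (Nat.one_le_div_iff (by omega)).mpr hd
    have hk := key hP ((p - 1) % d) ((p - 1) / d) h0 (by rw [← hdd]; rw [mul_comm]; omega)
    refine hk (hf _ _ ?_)
    generalize hb : (p - 1) / d = b at *
    generalize ha : (p - 1) % d = a at *
    have h3 : 2 * a + 2 * b ≤ p - 1 := by
      rcases Nat.lt_or_ge b 2 with h | h
      · have : b = 1 := by omega
        subst this
        omega
      · rcases Nat.lt_or_ge d 3 with h5 | h5
        · have : d = 2 := by omega
          rw [this] at hdiv hmod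
          omega
        · have h6 : 2 * d ≤ d * b := by nlinarith
          nlinarith
    omega

/-- **DEGA** -/
theorem dega : Pool.Agent.H45.R3.DEGA := by
  intro p _ hp2 f hf
  have hp : p.Prime := Fact.out
  obtain ⟨P, hP, hd⟩ := interp f
  refine ⟨P, hP, ?_⟩
  by_contra hcon
  push Not at hcon
  obtain ⟨hc1, hc2⟩ := hcon
  have h0 : P ≠ 0 := by
    intro h; rw [h] at hc1; simp at hc1
  have hodd : (p - 1) % 2 = 0 := by
    have := hp.eq_two_or_odd
    omega
  have hp9 : p ≠ 9 := by
    intro h; rw [h] at hp; revert hp; norm_num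
  set d := P.natDegree with hdd
  have hdiv := Nat.div_add_mod (p - 1) d
  have hmod := Nat.mod_lt (p - 1) (show 0 < d by omega)
  have hb1 : 1 ≤ (p - 1) / d := (Nat.one_le_div_iff (by omega)).mpr hd
  have hk := key hP ((p - 1) % d) ((p - 1) / d) h0 (by rw [← hdd]; rw [mul_comm]; omega)
  refine hk (hf _ _ ?_)
  generalize hb : (p - 1) / d = b at *
  generalize ha : (p - 1) % d = a at *
  have h3 : 2 * a + 2 * b < p - 1 := by
    rcases Nat.lt_or_ge b 2 with h | h
    · have : b = 1 := by omega
      subst this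
      omega
    · rcases Nat.lt_or_ge d 5 with h5 | h5
      · rcases (by omega : d = 3 ∨ d = 4) with h6 | h6
        · rw [h6] at hdiv hmod
          omega
        · rw [h6] at hdiv hmod
          omega
      · have h6 : 2 * d ≤ d * b := by nlinarith
        nlinarith
  omega

/-- a polynomial in `t` without constant restriction vanishing at all non-zero points -/
theorem coeff_zero (c : ℕ → ZMod p) (j : ℕ) (hj : j + 1 ≤ p - 1)
    (h : ∀ t : ZMod p, t ≠ 0 → ∑ i ∈ range (j + 1), c i * t ^ i = 0) : ∀ i ≤ j, c i = 0 := by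
  classical
  have hp : p.Prime := Fact.out
  set R : Polynomial (ZMod p) := ∑ i ∈ range (j + 1), C (c i) * X ^ i with hR
  have hdeg : R.natDegree ≤ j := by
    rw [hR]
    refine Polynomial.natDegree_sum_le_of_forall_le _ _ fun i hi => ?_
    rw [mem_range] at hi
    exact (Polynomial.natDegree_C_mul_X_pow_le _ _).trans (by omega)
  have hev : ∀ t : ZMod p, t ≠ 0 → R.eval t = 0 := by
    intro t ht
    rw [hR, Polynomial.eval_finsetSum]
    simpa using h t ht
  have hR0 : R = 0 := by
    by_contra hne
    have h1 : (univ.erase (0 : ZMod p)).card ≤ R.natDegree := by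
      have h2 : (univ.erase (0 : ZMod p)) ⊆ R.roots.toFinset := by
        intro t ht
        rw [mem_erase] at ht
        rw [Multiset.mem_toFinset, Polynomial.mem_roots hne]
        exact hev t ht.1
      calc _ ≤ R.roots.toFinset.card := Finset.card_le_card h2
        _ ≤ R.roots.card := Multiset.toFinset_card_le _
        _ ≤ R.natDegree := Polynomial.card_roots' R
    rw [Finset.card_erase_of_mem (mem_univ _), Finset.card_univ, ZMod.card] at h1
    omega
  intro i hi
  have h3 : R.coeff i = c i := by
    rw [hR, Polynomial.finsetSum_coeff]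
    simp only [Polynomial.coeff_C_mul, Polynomial.coeff_X_pow, mul_ite, mul_one, mul_zero]
    rw [Finset.sum_ite_eq]
    rw [if_pos (mem_range.mpr (by omega))]
  rw [← h3, hR0, Polynomial.coeff_zero]

/-- expansion -/
theorem expand (u : ZMod p → ZMod p) (t : ZMod p) (j : ℕ) :
    ∑ y, (u y + t * y) ^ j = ∑ i ∈ range (j + 1), ((j.choose i : ZMod p) * ∑ y, y ^ i * u y ^ (j - i)) * t ^ i := by
  have h1 : ∀ y : ZMod p, (u y + t * y) ^ j = ∑ i ∈ range (j + 1), (j.choose i : ZMod p) * (y ^ i * u y ^ (j - i)) * t ^ i := by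
    intro y
    rw [add_comm, add_pow]
    refine Finset.sum_congr rfl fun i _ => ?_
    rw [mul_pow]; ring
  simp_rw [h1]
  rw [Finset.sum_comm]
  refine Finset.sum_congr rfl fun i _ => ?_
  rw [Finset.mul_sum, Finset.sum_mul]

theorem choose_ne (j i : ℕ) (hj : j < p) (hi : i ≤ j) : (j.choose i : ZMod p) ≠ 0 := by
  have hp : p.Prime := Fact.out
  rw [Ne, ZMod.natCast_eq_zero_iff]
  intro h
  have h2 : p ∣ j.factorial := by
    rw [← Nat.choose_mul_factorial_mul_factorial hi]
    exact (h.mul_right _).mul_right _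
  rw [hp.dvd_factorial] at h2
  omega

/-- **MOM** -/
theorem mom : Pool.Agent.H45.R3.MOM := by
  intro p _ hp2 f hf
  have hp : p.Prime := Fact.out
  have hp3 : 3 ≤ p := by
    have := hp.two_le
    omega
  constructor
  · intro x a b hab
    have h1 : ∀ t : ZMod p, t ≠ 0 → ∑ i ∈ range (a + b + 1),
        (((a + b).choose i : ZMod p) * ∑ y, y ^ i * (f y x) ^ (a + b - i)) * t ^ i = 0 := by
      intro t ht
      rw [← expand (fun y => f y x) t (a + b)]
      exact (hf t ht).1 x _ hab
    have h2 := coeff_zero _ (a + b) (by omega) h1 a (by omega)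
    rw [Nat.add_sub_cancel_left] at h2
    exact (mul_eq_zero.mp h2).resolve_left (choose_ne _ _ (by omega) (by omega))
  · intro x x' a b hab
    have h1 : ∀ t : ZMod p, t ≠ 0 → ∑ i ∈ range (a + b + 1),
        (((a + b).choose i : ZMod p) * (∑ y, y ^ i * (f y x) ^ (a + b - i) - ∑ y, y ^ i * (f y x') ^ (a + b - i))) * t ^ i = 0 := by
      intro t ht
      have h2 := (hf t ht).2 x x'
      rw [← hab] at h2
      rw [expand (fun y => f y x) t (a + b), expand (fun y => f y x') t (a + b), ← sub_eq_zero, ← Finset.sum_sub_distrib] at h2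
      rw [← h2]
      refine Finset.sum_congr rfl fun i _ => ?_
      ring
    have h2 := coeff_zero _ (a + b) (by omega) h1 a (by omega)
    rw [Nat.add_sub_cancel_left] at h2
    exact sub_eq_zero.mp ((mul_eq_zero.mp h2).resolve_left (choose_ne _ _ (by omega) (by omega)))

end Pool.Agent.H15.R3
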