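import Mathlib
import Pool.Agent.H15.R3.Deg

/-!
# R3: module PAIR
-/

set_option autoImplicit false

open Finset Polynomial

namespace Pool.Agent.H15.R3

variable {p : ℕ} [Fact p.Prime]

/-- DEGA for a given polynomial -/
theorem dega_poly (hp2 : p ≠ 2) {f : ZMod p → ZMod p} {P : Polynomial (ZMod p)} (hP : ∀ y, f y = P.eval y)
    (hd : P.natDegree ≤ p - 1) (hf : ∀ a b, a + b < (p - 1) / 2 → ∑ y, y ^ a * (f y) ^ b = 0) :
    P.natDegree ≤ 2 ∨ P.natDegree = (p + 1) / 2 := by
  have hp : p.Prime := Fact.out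
  obtain ⟨Q, hQ, hQd⟩ := dega p hp2 f hf
  have h5 := hp.two_le
  have hQ1 : Q.natDegree ≤ p - 1 := by
    rcases hQd with h | h <;> omega
  have h3 : P = Q := by
    rw [← sub_eq_zero]
    by_contra hne
    have h1 : (univ : Finset (ZMod p)).card ≤ (P - Q).natDegree := by
      have h2 : (univ : Finset (ZMod p)) ⊆ (P - Q).roots.toFinset := by
        intro t _
        rw [Multiset.mem_toFinset, Polynomial.mem_roots hne, Polynomial.IsRoot.def, Polynomial.eval_sub, ← hP, ← hQ,
          sub_self]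
      calc _ ≤ (P - Q).roots.toFinset.card := Finset.card_le_card h2
        _ ≤ (P - Q).roots.card := Multiset.toFinset_card_le _
        _ ≤ (P - Q).natDegree := Polynomial.card_roots' _
    rw [Finset.card_univ, ZMod.card] at h1
    have h4 := Polynomial.natDegree_sub_le P Q
    omega
  rw [h3]; exact hQd

theorem affine_of (P : Polynomial (ZMod p)) (h : P.natDegree ≤ 1) : ∃ s c, ∀ y, P.eval y = s * y + c := by
  obtain ⟨s, c, hsc⟩ := Polynomial.exists_eq_X_add_C_of_natDegree_le_one h
  exact ⟨s, c, fun y => by rw [hsc]; simp⟩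

/-- two polynomials of degree at most two have an affine combination -/
theorem cancel2 (P Q : Polynomial (ZMod p)) (hP : P.natDegree ≤ 2) (hQ : Q.natDegree ≤ 2) :
    ∃ l l' : ZMod p, (l ≠ 0 ∨ l' ≠ 0) ∧ (C l * P + C l' * Q).natDegree ≤ 1 := by
  by_cases h : P.coeff 2 = 0
  · refine ⟨1, 0, Or.inl one_ne_zero, ?_⟩
    rw [Polynomial.natDegree_le_iff_coeff_eq_zero]
    intro n hn
    have h1 : (C (1 : ZMod p) * P + C 0 * Q) = P := by simp
    rw [h1]
    rcases Nat.lt_or_ge 2 n with h2 | h2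
    · exact Polynomial.coeff_eq_zero_of_natDegree_lt (by omega)
    · have : n = 2 := by omega
      rw [this]; exact h
  · refine ⟨Q.coeff 2, - P.coeff 2, Or.inr (neg_ne_zero.mpr h), ?_⟩
    rw [Polynomial.natDegree_le_iff_coeff_eq_zero]
    intro n hn
    rw [Polynomial.coeff_add, Polynomial.coeff_C_mul, Polynomial.coeff_C_mul]
    rcases Nat.lt_or_ge 2 n with h2 | h2
    · have e1 : P.coeff n = 0 := Polynomial.coeff_eq_zero_of_natDegree_lt (by omega)
      have e2 : Q.coeff n = 0 := Polynomial.coeff_eq_zero_of_natDegree_lt (by omega)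
      rw [e1, e2]
      ring
    · have : n = 2 := by omega
      rw [this]; ring

/-- **PAIR** -/
theorem pair : Pool.Agent.H45.R3.PAIR := by
  intro p _ hp2 hp5 f g hfg
  have hp : p.Prime := Fact.out
  obtain ⟨P, hP, hPd⟩ := interp f
  obtain ⟨Q, hQ, hQd⟩ := interp g
  have hcomb : ∀ l l' y : ZMod p, l * f y + l' * g y = (C l * P + C l' * Q).eval y := by
    intro l l' y
    rw [hP, hQ]; simp
  suffices hmain : ∃ l l' : ZMod p, (l ≠ 0 ∨ l' ≠ 0) ∧ (C l * P + C l' * Q).natDegree ≤ 1 by
    obtain ⟨l, l', h1, h2⟩ := hmain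
    obtain ⟨s, c, hsc⟩ := affine_of _ h2
    exact ⟨l, l', h1, s, c, fun y => by rw [hcomb]; exact hsc y⟩
  have hdeg : ∀ l l' : ZMod p, (C l * P + C l' * Q).natDegree ≤ p - 1 := by
    intro l l'
    refine (Polynomial.natDegree_add_le _ _).trans (max_le ?_ ?_)
    · exact (Polynomial.natDegree_C_mul_le _ _).trans hPd
    · exact (Polynomial.natDegree_C_mul_le _ _).trans hQd
  have hodd : p % 2 = 1 := by
    have := hp.eq_two_or_odd
    omega
  have hp3 : 3 ≤ p := by
    have := hp.two_le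
    omega
  by_cases hp3' : p = 3
  · exact cancel2 P Q (by omega) (by omega)
  have hp7 : 7 ≤ p := by omega
  have hd2 : ∀ l l' : ZMod p, (C l * P + C l' * Q).natDegree ≤ 2 ∨ (C l * P + C l' * Q).natDegree = (p + 1) / 2 := by
    intro l l'
    exact dega_poly hp2 (f := fun y => l * f y + l' * g y) (hcomb l l') (hdeg l l') (hfg l l')
  by_contra hcon
  push Not at hcon
  -- an element of degree two
  obtain ⟨l1, l1', hl1, hF0⟩ : ∃ l l' : ZMod p, (l ≠ 0 ∨ l' ≠ 0) ∧ (C l * P + C l' * Q).natDegree = 2 := by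
    obtain ⟨l, l', h1, h2⟩ : ∃ l l' : ZMod p, (l ≠ 0 ∨ l' ≠ 0) ∧ (C l * P + C l' * Q).coeff ((p + 1) / 2) = 0 := by
      by_cases h : P.coeff ((p + 1) / 2) = 0
      · exact ⟨1, 0, Or.inl one_ne_zero, by simpa using h⟩
      · refine ⟨Q.coeff ((p + 1) / 2), - P.coeff ((p + 1) / 2), Or.inr (neg_ne_zero.mpr h), ?_⟩
        rw [Polynomial.coeff_add, Polynomial.coeff_C_mul, Polynomial.coeff_C_mul]
        ring
    refine ⟨l, l', h1, ?_⟩
    rcases hd2 l l' with h3 | h3
    · have := hcon l l' h1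
      omega
    · exfalso
      rw [← h3, Polynomial.coeff_natDegree, Polynomial.leadingCoeff_eq_zero] at h2
      rw [h2] at h3
      simp only [Polynomial.natDegree_zero] at h3
      omega
  set F := C l1 * P + C l1' * Q with hF
  obtain ⟨m, m', hmm⟩ : ∃ m m' : ZMod p, l1 * m' - l1' * m ≠ 0 := by
    rcases hl1 with h | h
    · exact ⟨0, 1, by simpa using h⟩
    · exact ⟨1, 0, by simpa using h⟩
  set G := C m * P + C m' * Q with hG
  have hG0 : G.natDegree = (p + 1) / 2 := by
    rcases hd2 m m' with h3 | h3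
    · exfalso
      obtain ⟨r, r', hrr, hR⟩ := cancel2 F G (by omega) h3
      have h4 : C r * F + C r' * G = C (r * l1 + r' * m) * P + C (r * l1' + r' * m') * Q := by
        rw [hF, hG]
        simp only [Polynomial.C_add, Polynomial.C_mul]
        ring
      rw [h4] at hR
      have h5 : r * l1 + r' * m ≠ 0 ∨ r * l1' + r' * m' ≠ 0 := by
        by_contra h6
        push Not at h6
        obtain ⟨h6, h7⟩ := h6
        have h8 : r * (l1 * m' - l1' * m) = 0 := by linear_combination m' * h6 - m * h7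
        have h9 : r' * (l1 * m' - l1' * m) = 0 := by linear_combination l1 * h7 - l1' * h6
        rcases hrr with h | h
        · exact h ((mul_eq_zero.mp h8).resolve_right hmm)
        · exact h ((mul_eq_zero.mp h9).resolve_right hmm)
      have := hcon _ _ h5
      omega
    · exact h3
  have hFne : F ≠ 0 := by
    intro h; rw [h] at hF0; simp at hF0
  have hGne : G ≠ 0 := by
    intro h; rw [h] at hG0; simp only [Polynomial.natDegree_zero] at hG0; omega
  -- the exponents
  obtain ⟨a, b, hab, hb1⟩ : ∃ a b : ℕ, 2 * b + a + 1 = (p - 1) / 2 ∧ 1 ≤ b ∧ True := by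
    refine ⟨((p - 1) / 2 - 1) % 2, ((p - 1) / 2 - 1) / 2, ?_, ?_, trivial⟩ <;> omega
  have hb1 := hb1.1
  -- the polynomial in l
  have hz : ∀ t : ZMod p, t ≠ 0 → ∑ i ∈ range (b + 1 + 1),
      (((b + 1).choose i : ZMod p) * ∑ y : ZMod p, y ^ a * F.eval y ^ (b + 1 - i) * G.eval y ^ i) * t ^ i = 0 := by
    intro t ht
    have h1 := hfg (l1 + t * m) (l1' + t * m') a (b + 1) (by omega)
    have h2 : ∀ y : ZMod p, (l1 + t * m) * f y + (l1' + t * m') * g y = F.eval y + t * G.eval y := by
      intro y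
      rw [hP, hQ, hF, hG]
      simp only [Polynomial.eval_add, Polynomial.eval_mul, Polynomial.eval_C]
      ring
    simp_rw [h2] at h1
    have h3 : ∀ y : ZMod p, y ^ a * (F.eval y + t * G.eval y) ^ (b + 1) =
        ∑ i ∈ range (b + 1 + 1), ((b + 1).choose i : ZMod p) * (y ^ a * F.eval y ^ (b + 1 - i) * G.eval y ^ i) * t ^ i := by
      intro y
      rw [add_comm (F.eval y), add_pow, Finset.mul_sum]
      refine Finset.sum_congr rfl fun i _ => ?_
      rw [mul_pow]; ring
    simp_rw [h3] at h1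
    rw [Finset.sum_comm] at h1
    rw [← h1]
    refine Finset.sum_congr rfl fun i _ => ?_
    rw [Finset.mul_sum, Finset.sum_mul]
  have h1 := coeff_zero _ (b + 1) (by omega) hz 1 (by omega)
  rw [Nat.choose_one_right, Nat.add_sub_cancel] at h1
  have h2 : ((b + 1 : ℕ) : ZMod p) ≠ 0 := by
    have := choose_ne (p := p) (b + 1) 1 (by omega) (by omega)
    rwa [Nat.choose_one_right] at this
  have h3 := (mul_eq_zero.mp h1).resolve_left h2
  have h4 : ∀ y : ZMod p, y ^ a * F.eval y ^ b * G.eval y ^ 1 = (X ^ a * F ^ b * G).eval y := by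
    intro y; simp
  simp_rw [h4] at h3
  have hXF : X ^ a * F ^ b ≠ (0 : Polynomial (ZMod p)) := mul_ne_zero (pow_ne_zero _ Polynomial.X_ne_zero) (pow_ne_zero _ hFne)
  have h5 : (X ^ a * F ^ b * G).natDegree = p - 1 := by
    rw [Polynomial.natDegree_mul hXF hGne,
      Polynomial.natDegree_mul (pow_ne_zero _ Polynomial.X_ne_zero) (pow_ne_zero _ hFne), Polynomial.natDegree_pow,
      Polynomial.natDegree_pow, Polynomial.natDegree_X, hF0, hG0]
    omega
  rw [sum_eval _ h5.le, neg_eq_zero, ← h5, Polynomial.coeff_natDegree, Polynomial.leadingCoeff_eq_zero] at h3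
  exact mul_ne_zero hXF hGne h3

end Pool.Agent.H15.R3
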