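import Mathlib
import Pool.Agent.H15.R3.Pair

/-!
# R3: modules AFF and AFX
-/

set_option autoImplicit false

open Finset Polynomial

namespace Pool.Agent.H15.R3

open Pool.Agent.H45.R3

/-- the moments of a combination, from the second hypothesis -/
theorem moments (hval : VAL) (hmom : MOM) (p : ℕ) [Fact p.Prime] (hp2 : p ≠ 2) (f g : ZMod p → ZMod p → ZMod p)
    (H : Hyp2 f g) (l l' : ZMod p) (hl : l ≠ 0 ∨ l' ≠ 0) :
    (∀ x a b, a + b < (p - 1) / 2 → ∑ y, y ^ a * (l * f y x + l' * g y x) ^ b = 0) ∧
    (∀ x x' a b, a + b = (p - 1) / 2 → ∑ y, y ^ a * (l * f y x + l' * g y x) ^ b =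
      ∑ y, y ^ a * (l * f y x' + l' * g y x') ^ b) :=
  hmom p hp2 (fun y x => l * f y x + l' * g y x) fun t ht =>
    hval p hp2 (fun y x => l * f y x + l' * g y x) t fun c => H.1 l l' t c hl ht

theorem sum_pow_lt {p : ℕ} [Fact p.Prime] (a : ℕ) (h : a < p - 1) : ∑ y : ZMod p, y ^ a = 0 := by
  rw [sum_pow_eq a h.le, if_neg (by omega)]

/-- **AFF** -/
theorem aff (hval : VAL) (hmom : MOM) (hpair : PAIR) (hfiv : FIV) : AFF := by
  intro p _ hp2 f g H
  have hp : p.Prime := Fact.out
  have hp3 : 3 ≤ p := by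
    have := hp.two_le
    omega
  by_cases hp5 : p = 5
  · subst hp5
    obtain ⟨P, hP, hPd⟩ := interp (fun y => f y 0)
    obtain ⟨Q, hQ, hQd⟩ := interp (fun y => g y 0)
    have key5 : ∀ (R : Polynomial (ZMod 5)) (u : ZMod 5 → ZMod 5), (∀ y, u y = R.eval y) → R.natDegree ≤ 5 - 1 →
        ∑ y, u y = 0 → ∑ y, y * u y = 0 → R.natDegree ≤ 2 := by
      intro R u hu hR h1 h2
      have h3 : R.coeff 4 = 0 := by
        simp_rw [hu] at h1
        rw [sum_eval R hR, neg_eq_zero] at h1
        exact h1
      have h4 : R.natDegree ≤ 3 := by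
        rw [Polynomial.natDegree_le_iff_coeff_eq_zero]
        intro n hn
        rcases Nat.lt_or_ge 4 n with h | h
        · exact Polynomial.coeff_eq_zero_of_natDegree_lt (by omega)
        · have : n = 4 := by omega
          rw [this]; exact h3
      have h5 : R.coeff 3 = 0 := by
        have h6 : ∀ y, y * u y = (X * R).eval y := by
          intro y; rw [hu]; simp
        simp_rw [h6] at h2
        rw [sum_eval (X * R) ((Polynomial.natDegree_mul_le).trans (by rw [Polynomial.natDegree_X]; omega)),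
          neg_eq_zero] at h2
        have h7 : (5 : ℕ) - 1 = 3 + 1 := rfl
        rw [h7, Polynomial.coeff_X_mul] at h2
        exact h2
      rw [Polynomial.natDegree_le_iff_coeff_eq_zero]
      intro n hn
      rcases Nat.lt_or_ge 3 n with h | h
      · exact Polynomial.coeff_eq_zero_of_natDegree_lt (by omega)
      · have : n = 3 := by omega
        rw [this]; exact h5
    have hm := fun l l' hl => (moments hval hmom 5 hp2 f g H l l' hl).1 0
    have f0 : ∑ y, f y 0 = 0 := by
      have := hm 1 0 (Or.inl one_ne_zero) 0 1 (by norm_num)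
      simpa using this
    have g0 : ∑ y, g y 0 = 0 := by
      have := hm 0 1 (Or.inr one_ne_zero) 0 1 (by norm_num)
      simpa using this
    have f1 : ∑ y, y * f y 0 = 0 := by
      refine hfiv f ?_ 0
      intro k t c hk ht
      have := H.1 k 0 t c (Or.inl hk) ht
      simpa using this
    have g1 : ∑ y, y * g y 0 = 0 := by
      refine hfiv g ?_ 0
      intro k t c hk ht
      have := H.1 0 k t c (Or.inr hk) ht
      simpa using this
    obtain ⟨l, l', h1, h2⟩ := cancel2 P Q (key5 P (fun y => f y 0) hP hPd f0 f1) (key5 Q (fun y => g y 0) hQ hQd g0 g1)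
    obtain ⟨s, c, hsc⟩ := affine_of _ h2
    refine ⟨l, l', h1, s, c, fun y => ?_⟩
    rw [← hsc y]
    have e1 := hP y
    have e2 := hQ y
    rw [e1, e2]; simp
  · refine hpair p hp2 hp5 (fun y => f y 0) (fun y => g y 0) ?_
    intro l l' a b hab
    by_cases hl : l ≠ 0 ∨ l' ≠ 0
    · exact (moments hval hmom p hp2 f g H l l' hl).1 0 a b hab
    · push Not at hl
      rw [hl.1, hl.2]
      simp only [zero_mul, add_zero]
      rw [← Finset.sum_mul, sum_pow_lt a (by omega), zero_mul]

/-- **AFX** -/
theorem afx (haff : AFF) (hval : VAL) (hmom : MOM) (hdegb : DEGB) : AFX := by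
  intro p _ hp2 f g H
  have hp : p.Prime := Fact.out
  have hp3 : 3 ≤ p := by
    have := hp.two_le
    omega
  obtain ⟨l, l', hl, s, c, hsc⟩ := haff p hp2 f g H
  obtain ⟨m1, m2⟩ := moments hval hmom p hp2 f g H l l' hl
  have hall : ∀ x a b, a + b ≤ (p - 1) / 2 → ∑ y, y ^ a * (l * f y x + l' * g y x) ^ b = 0 := by
    intro x a b hab
    rcases Nat.lt_or_ge (a + b) ((p - 1) / 2) with h | h
    · exact m1 x a b h
    · rw [m2 x 0 a b (by omega)]
      simp_rw [hsc]
      have h1 : ∀ y : ZMod p, y ^ a * (s * y + c) ^ b = (X ^ a * (C s * X + C c) ^ b).eval y := by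
        intro y; simp
      simp_rw [h1]
      have h2 : (X ^ a * (C s * X + C c) ^ b : Polynomial (ZMod p)).natDegree ≤ a + b := by
        refine Polynomial.natDegree_mul_le.trans (add_le_add ?_ ?_)
        · rw [Polynomial.natDegree_X_pow]
        · refine Polynomial.natDegree_pow_le.trans ?_
          have h3 : (C s * X + C c : Polynomial (ZMod p)).natDegree ≤ 1 := Polynomial.natDegree_linear_le
          calc b * (C s * X + C c : Polynomial (ZMod p)).natDegree ≤ b * 1 := Nat.mul_le_mul_left _ h3
            _ = b := mul_one b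
      rw [sum_eval _ (by omega), Polynomial.coeff_eq_zero_of_natDegree_lt (by omega), neg_zero]
  have hrow : ∀ x, ∃ s c, ∀ y, l * f y x + l' * g y x = s * y + c := fun x =>
    hdegb p hp2 (fun y => l * f y x + l' * g y x) (hall x)
  choose τ h hh using hrow
  exact ⟨l, l', hl, τ, h, fun y x => hh x y⟩

end Pool.Agent.H15.R3
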