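import Mathlib
import Pool.Agent.H45.R3.Stmts

/-!
# R3: module VAN
-/

set_option autoImplicit false

open Finset Polynomial

namespace Pool.Agent.H15.R3

open Pool.Agent.H45.R3

variable {p : ℕ} [Fact p.Prime]

theorem e_add (a b : ZMod p) : e (a + b) = e a * e b := AddChar.map_add_eq_mul _ a b

theorem e_zero : e (0 : ZMod p) = 1 := AddChar.map_zero_eq_one _

theorem e_prim : IsPrimitiveRoot (e (1 : ZMod p)) p := by
  have hp : p.Prime := Fact.out
  have h1 : e (1 : ZMod p) = Complex.exp (2 * Real.pi * Complex.I / p) := by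
    have := ZMod.stdAddChar_coe (N := p) 1
    rw [Int.cast_one] at this
    unfold e
    rw [this]
    simp
  rw [h1]
  exact Complex.isPrimitiveRoot_exp p hp.ne_zero

theorem e_pow (v : ZMod p) : e v = e (1 : ZMod p) ^ v.val := by
  have h1 : v = v.val • (1 : ZMod p) := by
    rw [nsmul_eq_mul, mul_one, ZMod.natCast_zmod_val]
  conv_lhs => rw [h1]
  exact AddChar.map_nsmul_eq_pow _ _ _

theorem sum_range_eq {M : Type} [AddCommMonoid M] (g : ZMod p → ℕ → M) :
    ∑ i ∈ range p, g (i : ZMod p) i = ∑ v : ZMod p, g v v.val := by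
  refine Finset.sum_nbij' (fun i => (i : ZMod p)) (fun v => v.val) ?_ ?_ ?_ ?_ ?_
  · intro i _; exact mem_univ _
  · intro v _; exact mem_range.mpr (ZMod.val_lt v)
  · intro i hi; exact ZMod.val_cast_of_lt (mem_range.mp hi)
  · intro v _; exact ZMod.natCast_zmod_val v
  · intro i hi
    rw [ZMod.val_cast_of_lt (mem_range.mp hi)]

/-- **VAN** -/
theorem van : Pool.Agent.H45.R3.VAN := by
  intro p _ k hk v w
  have hp : p.Prime := Fact.out
  set ζ : ℂ := e (1 : ZMod p) with hζ
  have hprim : IsPrimitiveRoot ζ p := e_prim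
  set R : Polynomial ℚ := ∑ i ∈ range p, C ((k (i : ZMod p) : ℤ) : ℚ) * X ^ i with hR
  have hcoeff : ∀ i < p, R.coeff i = k (i : ZMod p) := by
    intro i hi
    rw [hR, Polynomial.finsetSum_coeff]
    simp only [Polynomial.coeff_C_mul, Polynomial.coeff_X_pow, mul_ite, mul_one, mul_zero]
    rw [Finset.sum_ite_eq, if_pos (mem_range.mpr hi)]
  have hdeg : R.natDegree ≤ p - 1 := by
    rw [hR]
    refine Polynomial.natDegree_sum_le_of_forall_le _ _ fun i hi => ?_
    rw [mem_range] at hi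
    exact (Polynomial.natDegree_C_mul_X_pow_le _ _).trans (by omega)
  have hroot : Polynomial.aeval ζ R = 0 := by
    rw [hR, map_sum]
    have h1 : ∀ i ∈ range p, Polynomial.aeval ζ (C ((k (i : ZMod p) : ℤ) : ℚ) * X ^ i) = (k (i : ZMod p) : ℂ) * ζ ^ i := by
      intro i _
      simp
    rw [Finset.sum_congr rfl h1, sum_range_eq (fun v i => (k v : ℂ) * ζ ^ i)]
    rw [← hk]
    refine Finset.sum_congr rfl fun v _ => ?_
    rw [e_pow v]
  have hdvd : Polynomial.cyclotomic p ℚ ∣ R := by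
    rw [Polynomial.cyclotomic_eq_minpoly_rat hprim hp.pos]
    exact minpoly.dvd ℚ ζ hroot
  obtain ⟨q, hq⟩ := hdvd
  have hcyc : Polynomial.cyclotomic p ℚ ≠ 0 := Polynomial.cyclotomic_ne_zero p ℚ
  have hq0 : q.natDegree = 0 := by
    by_cases h0 : q = 0
    · rw [h0]; simp
    · rw [hq, Polynomial.natDegree_mul hcyc h0, Polynomial.natDegree_cyclotomic, Nat.totient_prime hp] at hdeg
      omega
  rw [Polynomial.eq_C_of_natDegree_eq_zero hq0] at hq
  have hall : ∀ u : ZMod p, (k u : ℚ) = q.coeff 0 := by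
    intro u
    have h2 := hcoeff u.val (ZMod.val_lt u)
    rw [ZMod.natCast_zmod_val] at h2
    rw [← h2, hq, Polynomial.coeff_mul_C, Polynomial.cyclotomic_prime, Polynomial.finsetSum_coeff]
    simp only [Polynomial.coeff_X_pow]
    rw [Finset.sum_ite_eq, if_pos (mem_range.mpr (ZMod.val_lt u)), one_mul]
  have h3 : (k v : ℚ) = k w := (hall v).trans (hall w).symm
  exact_mod_cast h3

end Pool.Agent.H15.R3
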