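import Mathlib
import Pool.Agent.H15.R3.Van

/-!
# R3: Fourier tools on `ZMod p`, module SLO
-/

set_option autoImplicit false

open Finset

namespace Pool.Agent.H15.R3

open Pool.Agent.H45.R3

variable {p : ℕ} [Fact p.Prime]

theorem conj_e (a : ZMod p) : (starRingEnd ℂ) (e a) = e (-a) := (AddChar.map_neg_eq_conj _ a).symm

theorem norm_e (a : ZMod p) : ‖e a‖ = 1 := AddChar.norm_apply _ a

theorem e_ne_zero (a : ZMod p) : e a ≠ 0 := by
  intro h
  have := norm_e a
  rw [h] at this
  simp at this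

theorem e_inj {a b : ZMod p} (h : e a = e b) : a = b := ZMod.injective_stdAddChar h

theorem sum_e (a : ZMod p) : ∑ t : ZMod p, e (t * a) = if a = 0 then (p : ℂ) else 0 := by
  have h := AddChar.sum_mulShift (R := ZMod p) (ψ := ZMod.stdAddChar) a (ZMod.isPrimitive_stdAddChar p)
  rw [ZMod.card] at h
  unfold e
  rw [h]
  split_ifs <;> simp

theorem sum_e_add (a c : ZMod p) : ∑ t : ZMod p, e (t * a + c) = if a = 0 then (p : ℂ) * e c else 0 := by
  simp_rw [e_add]
  rw [← Finset.sum_mul, sum_e]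
  split_ifs <;> simp

theorem nsq (z : ℂ) : ((‖z‖ ^ 2 : ℝ) : ℂ) = z * (starRingEnd ℂ) z := by
  rw [Complex.mul_conj, Complex.normSq_eq_norm_sq]

/-- Parseval -/
theorem parseval (w : ZMod p → ℂ) : ∑ c : ZMod p, ‖∑ x, w x * e (c * x)‖ ^ 2 = (p : ℝ) * ∑ x, ‖w x‖ ^ 2 := by
  have h : ((∑ c : ZMod p, ‖∑ x, w x * e (c * x)‖ ^ 2 : ℝ) : ℂ) = (((p : ℝ) * ∑ x, ‖w x‖ ^ 2 : ℝ) : ℂ) := by
    rw [Complex.ofReal_sum, Complex.ofReal_mul, Complex.ofReal_sum, Complex.ofReal_natCast]
    have h1 : ∀ c : ZMod p, ((‖∑ x, w x * e (c * x)‖ ^ 2 : ℝ) : ℂ) =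
        ∑ x, ∑ x', w x * (starRingEnd ℂ) (w x') * e (c * (x - x')) := by
      intro c
      rw [nsq, map_sum, Finset.sum_mul_sum]
      refine Finset.sum_congr rfl fun x _ => Finset.sum_congr rfl fun x' _ => ?_
      rw [map_mul, conj_e, mul_sub, sub_eq_add_neg, e_add]
      ring
    simp_rw [h1, nsq]
    rw [Finset.sum_comm, Finset.mul_sum]
    refine Finset.sum_congr rfl fun x _ => ?_
    rw [Finset.sum_comm]
    have h3 : ∀ x' : ZMod p, ∑ c : ZMod p, w x * (starRingEnd ℂ) (w x') * e (c * (x - x')) =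
        if x' = x then (p : ℂ) * (w x * (starRingEnd ℂ) (w x)) else 0 := by
      intro x'
      rw [← Finset.mul_sum, sum_e]
      by_cases hx : x' = x
      · rw [if_pos hx, if_pos (by rw [hx, sub_self]), hx]; ring
      · rw [if_neg hx, if_neg (fun h => hx (sub_eq_zero.mp h).symm), mul_zero]
    simp_rw [h3]
    rw [Finset.sum_ite_eq' univ x, if_pos (mem_univ _)]
  exact_mod_cast h

/-- Fourier inversion -/
theorem inversion (w : ZMod p → ℂ) (x : ZMod p) : ∑ c : ZMod p, (∑ x', w x' * e (c * x')) * e (-(c * x)) = (p : ℂ) * w x := by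
  have h1 : ∀ c : ZMod p, (∑ x', w x' * e (c * x')) * e (-(c * x)) = ∑ x', w x' * e (c * (x' - x)) := by
    intro c
    rw [Finset.sum_mul]
    refine Finset.sum_congr rfl fun x' _ => ?_
    rw [mul_assoc, ← e_add]
    congr 2; ring
  simp_rw [h1]
  rw [Finset.sum_comm]
  have h3 : ∀ x' : ZMod p, ∑ c : ZMod p, w x' * e (c * (x' - x)) = if x' = x then (p : ℂ) * w x else 0 := by
    intro x'
    rw [← Finset.mul_sum, sum_e]
    by_cases hx : x' = x
    · rw [if_pos hx, if_pos (by rw [hx, sub_self]), hx]; ring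
    · rw [if_neg hx, if_neg (fun h => hx (sub_eq_zero.mp h)), mul_zero]
  simp_rw [h3]
  rw [Finset.sum_ite_eq' univ x, if_pos (mem_univ _)]

/-- the absolute value of an exponential sum over a set -/
theorem norm_sum_sq {ι : Type} (A : Finset ι) (φ : ι → ZMod p) :
    ((‖∑ x ∈ A, e (φ x)‖ ^ 2 : ℝ) : ℂ) = ∑ q ∈ A ×ˢ A, e (φ q.1 - φ q.2) := by
  rw [nsq, map_sum, Finset.sum_mul_sum, Finset.sum_product]
  refine Finset.sum_congr rfl fun x _ => Finset.sum_congr rfl fun x' _ => ?_
  rw [conj_e, sub_eq_add_neg, e_add]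

/-- divisibility of the size of the set -/
theorem dvd_card {ι : Type} (A : Finset ι) (φ : ι → ZMod p) (m : ℤ)
    (h : ‖∑ x ∈ A, e (φ x)‖ ^ 2 = (p : ℝ) * m) : p ∣ A.card ^ 2 := by
  classical
  have h1 := norm_sum_sq A φ
  rw [h] at h1
  set N : ZMod p → ℕ := fun u => ((A ×ˢ A).filter fun q => φ q.1 - φ q.2 = u).card with hN
  have h2 : ∑ q ∈ A ×ˢ A, e (φ q.1 - φ q.2) = ∑ u : ZMod p, (N u : ℂ) * e u := by
    rw [← Finset.sum_fiberwise (A ×ˢ A) (fun q => φ q.1 - φ q.2)]
    refine Finset.sum_congr rfl fun u _ => ?_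
    rw [Finset.sum_congr rfl (g := fun _ => e u)]
    · rw [Finset.sum_const, nsmul_eq_mul]
    · intro q hq
      rw [mem_filter] at hq
      rw [hq.2]
  have h3 : ∑ u : ZMod p, (((N u : ℤ) - (if u = 0 then (p : ℤ) * m else 0) : ℤ) : ℂ) * e u = 0 := by
    push_cast
    simp_rw [sub_mul]
    rw [Finset.sum_sub_distrib, ← h2, ← h1]
    simp only [ite_mul, zero_mul]
    rw [Finset.sum_ite_eq' univ (0 : ZMod p), if_pos (mem_univ _), e_zero]
    push_cast
    ring
  have h4 := van p _ h3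
  have h5 : ∑ u : ZMod p, ((N u : ℤ) - (if u = 0 then (p : ℤ) * m else 0)) = p * ((N 0 : ℤ) - p * m) := by
    rw [Finset.sum_congr rfl (g := fun _ => ((N 0 : ℤ) - p * m))]
    · rw [Finset.sum_const, Finset.card_univ, ZMod.card, nsmul_eq_mul]
    · intro u _
      have := h4 u 0
      rw [if_pos rfl] at this
      exact this
  rw [Finset.sum_sub_distrib, Finset.sum_ite_eq' univ (0 : ZMod p), if_pos (mem_univ _)] at h5
  have h6 : ∑ u : ZMod p, (N u : ℤ) = A.card ^ 2 := by
    have := Finset.card_eq_sum_card_fiberwise (s := A ×ˢ A) (t := univ) (f := fun q => φ q.1 - φ q.2)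
      (fun q _ => by simp)
    rw [Finset.card_product] at this
    rw [sq]
    exact_mod_cast this.symm
  rw [h6] at h5
  have h7 : (p : ℤ) ∣ (A.card : ℤ) ^ 2 := ⟨m + ((N 0 : ℤ) - p * m), by linarith⟩
  exact_mod_cast h7

/-- **SLO** -/
theorem slo : Pool.Agent.H45.R3.SLO := by
  classical
  intro p _ hp2 τ h H
  have hp : p.Prime := Fact.out
  have hpR : (0 : ℝ) < p := by exact_mod_cast hp.pos
  -- the sums over the fibres
  have hW : ∀ t c : ZMod p, W (fun y x => τ x * y + h x) t c =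
      (p : ℂ) * ∑ x ∈ univ.filter (fun x => τ x = -t), e (h x + c * x) := by
    intro t c
    unfold W
    rw [Finset.sum_comm, Finset.mul_sum, Finset.sum_filter]
    refine Finset.sum_congr rfl fun x _ => ?_
    have h1 : ∀ y : ZMod p, e (τ x * y + h x + t * y + c * x) = e (y * (τ x + t) + (h x + c * x)) := by
      intro y; congr 1; ring
    simp_rw [h1]
    rw [sum_e_add]
    by_cases h2 : τ x = -t
    · rw [if_pos (by rw [h2]; ring), if_pos h2]
    · rw [if_neg (fun h3 => h2 (eq_neg_of_add_eq_zero_left h3)), if_neg h2]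
  have hS : ∀ t c : ZMod p, t ≠ 0 → (∑ x ∈ univ.filter (fun x => τ x = -t), e (h x + c * x)) = 0 ∨
      ‖∑ x ∈ univ.filter (fun x => τ x = -t), e (h x + c * x)‖ ^ 2 = (p : ℝ) := by
    intro t c ht
    rcases H t c ht with h1 | h1
    · left
      rw [hW] at h1
      exact (mul_eq_zero.mp h1).resolve_left (by exact_mod_cast hp.ne_zero)
    · right
      rw [hW, norm_mul, mul_pow, Complex.norm_natCast] at h1
      have h2 : (p : ℝ) ^ 2 * ‖∑ x ∈ univ.filter (fun x => τ x = -t), e (h x + c * x)‖ ^ 2 = (p : ℝ) ^ 2 * p := by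
        rw [h1]; ring
      exact mul_left_cancel₀ (by positivity) h2
  have hfull : ∀ t x0 : ZMod p, t ≠ 0 → τ x0 = -t → ∀ x, τ x = -t := by
    intro t x0 ht hx0
    set A := univ.filter (fun x => τ x = -t) with hA
    have hx0A : x0 ∈ A := by rw [hA, mem_filter]; exact ⟨mem_univ _, hx0⟩
    -- Parseval
    have hP := parseval (fun x => if x ∈ A then e (h x) else 0)
    have h1 : ∀ c : ZMod p, ∑ x, (if x ∈ A then e (h x) else 0) * e (c * x) = ∑ x ∈ A, e (h x + c * x) := by
      intro c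
      rw [← Finset.sum_filter_add_sum_filter_not univ (fun x => x ∈ A)]
      rw [Finset.sum_eq_zero (s := univ.filter fun x => ¬ x ∈ A), add_zero]
      · have h2 : univ.filter (fun x => x ∈ A) = A := by ext x; simp
        rw [h2]
        refine Finset.sum_congr rfl fun x hx => ?_
        rw [if_pos hx, e_add]
      · intro x hx
        rw [mem_filter] at hx
        rw [if_neg hx.2, zero_mul]
    simp_rw [h1] at hP
    have h2 : ∑ x, ‖(if x ∈ A then e (h x) else 0 : ℂ)‖ ^ 2 = (A.card : ℝ) := by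
      have h3 : ∀ x, ‖(if x ∈ A then e (h x) else 0 : ℂ)‖ ^ 2 = if x ∈ A then (1 : ℝ) else 0 := by
        intro x
        split_ifs
        · rw [norm_e, one_pow]
        · simp
      simp_rw [h3]
      rw [Finset.sum_ite_mem, univ_inter, Finset.sum_const, nsmul_eq_mul, mul_one]
    rw [h2] at hP
    have hApos : 0 < A.card := Finset.card_pos.mpr ⟨x0, hx0A⟩
    have h4 : ∃ c, ∑ x ∈ A, e (h x + c * x) ≠ 0 := by
      by_contra hno
      push Not at hno
      rw [Finset.sum_eq_zero (fun c _ => by rw [hno c]; simp)] at hP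
      have : (0 : ℝ) < p * A.card := by
        apply mul_pos hpR
        exact_mod_cast hApos
      linarith
    obtain ⟨c, hc⟩ := h4
    have h5 := (hS t c ht).resolve_left hc
    have h6 : p ∣ A.card ^ 2 := dvd_card A (fun x => h x + c * x) 1 (by rw [h5]; simp)
    have h7 : p ∣ A.card := hp.dvd_of_dvd_pow h6
    have h8 : A.card ≤ p := by
      have := Finset.card_le_univ A
      rwa [ZMod.card] at this
    have h9 : A.card = p := le_antisymm h8 (Nat.le_of_dvd hApos h7)
    have h10 : A = univ := by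
      apply Finset.eq_univ_of_card
      rw [h9, ZMod.card]
    intro x
    have : x ∈ A := by rw [h10]; exact mem_univ _
    rw [hA, mem_filter] at this
    exact this.2
  have hconst : ∀ x x', τ x = τ x' := by
    intro x x'
    by_cases h0 : ∀ x0, τ x0 = 0
    · rw [h0 x, h0 x']
    · push Not at h0
      obtain ⟨x0, hx0⟩ := h0
      have h1 := hfull (- τ x0) x0 (neg_ne_zero.mpr hx0) (by ring)
      rw [h1 x, h1 x']
  refine ⟨hconst, ?_⟩
  intro h0
  have hAll : univ.filter (fun x => τ x = -(-τ 0)) = univ := by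
    rw [Finset.filter_true_of_mem]
    intro x _
    rw [neg_neg]; exact hconst x 0
  have hS' : ∀ c : ZMod p, ‖∑ x : ZMod p, e (h x + c * x)‖ ^ 2 ≤ (p : ℝ) := by
    intro c
    have h1 := hS (-τ 0) c (neg_ne_zero.mpr h0)
    rw [hAll] at h1
    rcases h1 with h1 | h1
    · rw [h1]; simp
    · rw [h1]
  have hP := parseval (fun x => e (h x))
  simp_rw [← e_add, norm_e] at hP
  rw [one_pow, Finset.sum_const, Finset.card_univ, ZMod.card, nsmul_eq_mul, mul_one] at hP
  have hsum : ∑ c : ZMod p, ((p : ℝ) - ‖∑ x : ZMod p, e (h x + c * x)‖ ^ 2) = 0 := by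
    rw [Finset.sum_sub_distrib, hP, Finset.sum_const, Finset.card_univ, ZMod.card, nsmul_eq_mul, sub_self]
  rw [Finset.sum_eq_zero_iff_of_nonneg (fun c _ => sub_nonneg.mpr (hS' c))] at hsum
  intro c
  exact (sub_eq_zero.mp (hsum c (mem_univ _))).symm

end Pool.Agent.H15.R3
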