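import Mathlib
import Pool.Agent.H15.R3.Four

/-!
# R3: modules SEP, C1, ONE, FIN
-/

set_option autoImplicit false

open Finset

namespace Pool.Agent.H15.R3

open Pool.Agent.H45.R3

variable {p : ℕ} [Fact p.Prime]

/-- iteration of a constant difference -/
theorem iter {g : ZMod p → ZMod p → ZMod p} {u v c : ZMod p} (h : ∀ y x, g (y + u) (x + v) = g y x + c)
    (a y x : ZMod p) : g (y + a * u) (x + a * v) = g y x + a * c := by
  have h1 : ∀ n : ℕ, ∀ y x, g (y + (n : ZMod p) * u) (x + (n : ZMod p) * v) = g y x + (n : ZMod p) * c := by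
    intro n
    induction n with
    | zero => intro y x; simp
    | succ n ih =>
      intro y x
      have h2 := h (y + (n : ZMod p) * u) (x + (n : ZMod p) * v)
      rw [ih] at h2
      rw [show y + ((n + 1 : ℕ) : ZMod p) * u = y + (n : ZMod p) * u + u by push_cast; ring,
        show x + ((n + 1 : ℕ) : ZMod p) * v = x + (n : ZMod p) * v + v by push_cast; ring, h2]
      push_cast; ring
  have h3 := h1 a.val y x
  rw [ZMod.natCast_zmod_val] at h3
  exact h3

/-- change of coordinates -/
theorem sum_coord {u v u' v' : ZMod p} (hD : u * v' - u' * v ≠ 0) (Φ : ZMod p → ZMod p → ℂ) :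
    ∑ y, ∑ x, Φ y x = ∑ a, ∑ b, Φ (a * u + b * u') (a * v + b * v') := by
  rw [← Finset.sum_product', ← Finset.sum_product']
  set D := u * v' - u' * v with hDdef
  refine (Finset.sum_nbij' (fun q : ZMod p × ZMod p => (q.1 * u + q.2 * u', q.1 * v + q.2 * v'))
    (fun q => ((q.1 * v' - q.2 * u') * D⁻¹, (u * q.2 - v * q.1) * D⁻¹)) ?_ ?_ ?_ ?_ ?_).symm
  · intro q _; simp
  · intro q _; simp
  · intro q _
    ext
    · simp only
      have : (q.1 * u + q.2 * u') * v' - (q.1 * v + q.2 * v') * u' = q.1 * D := by rw [hDdef]; ring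
      rw [this, mul_assoc, mul_inv_cancel₀ hD, mul_one]
    · simp only
      have : u * (q.1 * v + q.2 * v') - v * (q.1 * u + q.2 * u') = q.2 * D := by rw [hDdef]; ring
      rw [this, mul_assoc, mul_inv_cancel₀ hD, mul_one]
  · intro q _
    ext
    · simp only
      have : (q.1 * v' - q.2 * u') * D⁻¹ * u + (u * q.2 - v * q.1) * D⁻¹ * u' = q.1 * (D * D⁻¹) := by rw [hDdef]; ring
      rw [this, mul_inv_cancel₀ hD, mul_one]
    · simp only
      have : (q.1 * v' - q.2 * u') * D⁻¹ * v + (u * q.2 - v * q.1) * D⁻¹ * v' = q.2 * (D * D⁻¹) := by rw [hDdef]; ring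
      rw [this, mul_inv_cancel₀ hD, mul_one]
  · intro q _; rfl

/-- Walsh coefficients of separated functions -/
theorem W_coord {u v u' v' : ZMod p} (hD : u * v' - u' * v ≠ 0) (f : ZMod p → ZMod p → ZMod p) (α β : ZMod p → ZMod p)
    (hf : ∀ a b, f (a * u + b * u') (a * v + b * v') = α a + β b) (μ ν : ZMod p) :
    ∃ t s, W f t s = (∑ a, e (α a + μ * a)) * (∑ b, e (β b + ν * b)) := by
  set D := u * v' - u' * v with hDdef
  refine ⟨(μ * v' - ν * v) * D⁻¹, (ν * u - μ * u') * D⁻¹, ?_⟩
  unfold W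
  rw [sum_coord (by rw [← hDdef]; exact hD), Finset.sum_mul_sum]
  refine Finset.sum_congr rfl fun a _ => Finset.sum_congr rfl fun b _ => ?_
  rw [hf, ← e_add]
  congr 1
  have h1 : (μ * v' - ν * v) * D⁻¹ * (a * u + b * u') + (ν * u - μ * u') * D⁻¹ * (a * v + b * v') =
      (μ * a + ν * b) * (D * D⁻¹) := by rw [hDdef]; ring
  rw [mul_inv_cancel₀ hD, mul_one] at h1
  linear_combination h1

/-- if the one-dimensional sums have square norm `0` or `p`, they all have square norm `p` -/
theorem all_p (φ : ZMod p → ZMod p) (h : ∀ ν, ‖∑ b, e (φ b + ν * b)‖ ^ 2 ≤ (p : ℝ)) (ν : ZMod p) :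
    ‖∑ b, e (φ b + ν * b)‖ ^ 2 = (p : ℝ) := by
  have hP := parseval (fun x => e (φ x))
  simp_rw [← e_add, norm_e] at hP
  rw [one_pow, Finset.sum_const, Finset.card_univ, ZMod.card, nsmul_eq_mul, mul_one] at hP
  have hsum : ∑ c : ZMod p, ((p : ℝ) - ‖∑ x : ZMod p, e (φ x + c * x)‖ ^ 2) = 0 := by
    rw [Finset.sum_sub_distrib, hP, Finset.sum_const, Finset.card_univ, ZMod.card, nsmul_eq_mul, sub_self]
  rw [Finset.sum_eq_zero_iff_of_nonneg (fun c _ => sub_nonneg.mpr (h c))] at hsum
  exact (sub_eq_zero.mp (hsum ν (mem_univ _))).symm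

/-- from a Good product with one factor equal to `p` -/
theorem good_fac {A B : ℂ} (hA : A = p) (h : A * B = 0 ∨ ‖A * B‖ ^ 2 = (p : ℝ) ^ 3) : ‖B‖ ^ 2 ≤ (p : ℝ) := by
  have hp : p.Prime := Fact.out
  have hpR : (0 : ℝ) < p := by exact_mod_cast hp.pos
  rcases h with h | h
  · have : B = 0 := (mul_eq_zero.mp h).resolve_left (by rw [hA]; exact_mod_cast hp.ne_zero)
    rw [this]; simp
  · rw [norm_mul, mul_pow, hA, Complex.norm_natCast] at h
    have h2 : (p : ℝ) ^ 2 * ‖B‖ ^ 2 = (p : ℝ) ^ 2 * p := by rw [h]; ring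
    exact (mul_left_cancel₀ (by positivity) h2).le

/-- **SEP** -/
theorem sep : Pool.Agent.H45.R3.SEP := by
  intro p _ hp2 g g' u v c u' v' c' hg hg' G1 G2 G3
  have hp : p.Prime := Fact.out
  have hpR : (1 : ℝ) < p := by exact_mod_cast hp.one_lt
  by_contra hne
  have hD : u * v' - u' * v ≠ 0 := sub_ne_zero.mpr hne
  have c1 : ∀ a b, g (a * u + b * u') (a * v + b * v') = g (b * u') (b * v') + a * c := by
    intro a b
    have := iter hg a (b * u') (b * v')
    rw [← this]; congr 1 <;> ring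
  have c2 : ∀ a b, g' (a * u + b * u') (a * v + b * v') = g' (a * u) (a * v) + b * c' := fun a b =>
    iter hg' b (a * u) (a * v)
  have B1 : ∀ ν : ZMod p, ‖∑ b, e (- g (b * u') (b * v') + ν * b)‖ ^ 2 = (p : ℝ) := by
    refine all_p _ fun ν => ?_
    obtain ⟨t, s, hts⟩ := W_coord hD (fun y x => - g y x) (fun a => - (a * c)) (fun b => - g (b * u') (b * v'))
      (fun a b => by rw [c1]; ring) c ν
    have h1 := G1 t s
    unfold Good at h1
    rw [hts] at h1
    refine good_fac ?_ h1
    have h2 : ∀ a : ZMod p, e (-(a * c) + c * a) = 1 := by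
      intro a
      rw [show -(a * c) + c * a = 0 by ring, e_zero]
    simp_rw [h2]
    simp
  have A1 : ∀ μ : ZMod p, ‖∑ a, e (2 * g' (a * u) (a * v) + μ * a)‖ ^ 2 = (p : ℝ) := by
    refine all_p _ fun μ => ?_
    obtain ⟨t, s, hts⟩ := W_coord hD (fun y x => 2 * g' y x) (fun a => 2 * g' (a * u) (a * v)) (fun b => 2 * (b * c'))
      (fun a b => by rw [c2]; ring) μ (- (2 * c'))
    have h1 := G2 t s
    unfold Good at h1
    rw [hts, mul_comm] at h1
    refine good_fac ?_ h1
    have h2 : ∀ b : ZMod p, e (2 * (b * c') + - (2 * c') * b) = 1 := by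
      intro b
      rw [show 2 * (b * c') + - (2 * c') * b = 0 by ring, e_zero]
    simp_rw [h2]
    simp
  obtain ⟨t, s, hts⟩ := W_coord hD (fun y x => 2 * g' y x - g y x) (fun a => 2 * g' (a * u) (a * v) - a * c)
      (fun b => 2 * (b * c') - g (b * u') (b * v')) (fun a b => by rw [c1, c2]; ring) 0 0
  have h3 : W (fun y x => 2 * g' y x - g y x) t s =
      (∑ a, e (2 * g' (a * u) (a * v) + (-c) * a)) * (∑ b, e (- g (b * u') (b * v') + (2 * c') * b)) := by
    rw [hts]
    congr 1
    · refine Finset.sum_congr rfl fun a _ => ?_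
      congr 1; ring
    · refine Finset.sum_congr rfl fun b _ => ?_
      congr 1; ring
  have h4 : ‖W (fun y x => 2 * g' y x - g y x) t s‖ ^ 2 = (p : ℝ) ^ 2 := by
    rw [h3, norm_mul, mul_pow, A1, B1]; ring
  rcases G3 t s with h | h
  · rw [h] at h4
    simp at h4
    nlinarith
  · rw [h4] at h
    have : (p : ℝ) ^ 3 = p ^ 2 * p := by ring
    rw [this] at h
    have h5 : (0 : ℝ) < (p : ℝ) ^ 2 := by positivity
    nlinarith

/-- **C1** -/
theorem c1 (hline : LINE) (hsep : SEP) : Pool.Agent.H45.R3.C1 := by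
  intro p _ hp2 F1 F2 H
  have hp : p.Prime := Fact.out
  have h2 : (2 : ZMod p) ≠ 0 := by
    intro h
    have h1 : ((2 : ℕ) : ZMod p) = 0 := by exact_mod_cast h
    rw [ZMod.natCast_eq_zero_iff] at h1
    have := Nat.le_of_dvd (by norm_num) h1
    have := hp.two_le
    omega
  have H1 : ∀ t c, Good F1 t c := by
    intro t c
    have := H 1 0 t c one_ne_zero
    simpa using this
  have H2 : ∀ t c, Good (fun y x => F1 y x + F2 y x) t c := by
    intro t c
    have := H 1 1 t c one_ne_zero
    simpa using this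
  obtain ⟨u, v, c, huv, hc⟩ := hline p hp2 F1 H1
  obtain ⟨u', v', c', huv', hc'⟩ := hline p hp2 _ H2
  have hpar : u * v' = u' * v := by
    refine hsep p hp2 F1 (fun y x => F1 y x + F2 y x) u v c u' v' c' hc hc' ?_ ?_ ?_
    · intro t s
      have := H (-1) 0 t s (neg_ne_zero.mpr one_ne_zero)
      simpa using this
    · intro t s
      have := H 2 1 t s h2
      simpa using this
    · intro t s
      have := H 1 2 t s one_ne_zero
      have h3 : (fun y x => 2 * (F1 y x + F2 y x) - F1 y x) = fun y x => (1 : ZMod p) * (F1 y x + 2 * F2 y x) := by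
        funext y x; ring
      simp only [h3]
      exact this
  obtain ⟨r, hr1, hr2⟩ : ∃ r : ZMod p, u = r * u' ∧ v = r * v' := by
    rcases huv' with h | h
    · refine ⟨u * u'⁻¹, ?_, ?_⟩
      · rw [mul_assoc, inv_mul_cancel₀ h, mul_one]
      · have : u * u'⁻¹ * v' = (u * v') * u'⁻¹ := by ring
        rw [this, hpar]
        field_simp
    · refine ⟨v * v'⁻¹, ?_, ?_⟩
      · have : v * v'⁻¹ * u' = (u' * v) * v'⁻¹ := by ring
        rw [this, ← hpar]
        field_simp
      · rw [mul_assoc, inv_mul_cancel₀ h, mul_one]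
  refine ⟨u, v, c, r * c' - c, huv, fun y x => ⟨hc y x, ?_⟩⟩
  have h4 := iter (g := fun y x => F1 y x + F2 y x) hc' r y x
  rw [← hr1, ← hr2, hc] at h4
  linear_combination h4

/-- exactly one nonzero value -/
theorem one_count (a : ZMod p → ℝ) (P : ℝ) (hP : 0 < P) (h : ∀ c, a c = 0 ∨ a c = P) (hs : ∑ c, a c = P) :
    ∃ c, ∀ c', a c' ≠ 0 ↔ c' = c := by
  classical
  have h1 : ∃ c, a c ≠ 0 := by
    by_contra hno
    push Not at hno
    rw [Finset.sum_eq_zero (fun c _ => hno c)] at hs
    linarith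
  obtain ⟨c, hc⟩ := h1
  refine ⟨c, fun c' => ⟨fun hc' => ?_, fun hc' => by rw [hc']; exact hc⟩⟩
  by_contra hne
  have h2 : a c + a c' ≤ ∑ c, a c := by
    rw [← Finset.sum_pair (f := a) (fun h => hne h.symm)]
    refine Finset.sum_le_sum_of_subset_of_nonneg (subset_univ _) fun i _ _ => ?_
    rcases h i with h | h <;> rw [h]
    exact hP.le
  rw [hs, (h c).resolve_left hc, (h c').resolve_left hc'] at h2
  linarith

/-- Walsh coefficients as Fourier transforms of the row sums -/
theorem W_rows (F : ZMod p → ZMod p → ZMod p) (t c : ZMod p) :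
    W F t c = ∑ x, (∑ y, e (F y x + t * y)) * e (c * x) := by
  unfold W
  rw [Finset.sum_comm]
  refine Finset.sum_congr rfl fun x _ => ?_
  rw [Finset.sum_mul]
  refine Finset.sum_congr rfl fun y _ => ?_
  rw [← e_add]

/-- **ONE** -/
theorem one : Pool.Agent.H45.R3.ONE := by
  classical
  intro p _ hp2 f g H l l' s h hl hlin m m' t hdet ht
  have hp : p.Prime := Fact.out
  have hpR : (0 : ℝ) < p := by exact_mod_cast hp.pos
  set F : ZMod p → ZMod p → ZMod p := fun y x => m * f y x + m' * g y x with hF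
  have hdet' : l * m' - l' * m ≠ 0 := sub_ne_zero.mpr hdet
  -- the differences
  have hinner : ∀ r : ZMod p, r ≠ 0 → ∑ q : ZMod p × ZMod p, e (F (q.1 + r) q.2 - F q.1 q.2) = 0 := by
    intro r hr
    set ψ : ZMod p × ZMod p → ZMod p := fun q => F (q.1 + r) q.2 - F q.1 q.2 with hψ
    set M : ZMod p → ℕ := fun w => (univ.filter fun q => ψ q = w).card with hM
    have hMle : ∀ w, M w ≤ p := by
      intro w
      refine le_trans (Finset.card_le_card ?_) (H.2 r ((m' * (s * r) - l' * w) * (l * m' - l' * m)⁻¹)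
        ((l * w - m * (s * r)) * (l * m' - l' * m)⁻¹) hr)
      intro q hq
      rw [mem_filter] at hq ⊢
      refine ⟨mem_univ _, ?_⟩
      have hw := hq.2
      rw [hψ, hF] at hw
      simp only at hw
      have h1 := hlin (q.1 + r) q.2
      have h2 := hlin q.1 q.2
      constructor
      · rw [eq_mul_inv_iff_mul_eq₀ hdet']
        linear_combination m' * h1 - m' * h2 - l' * hw
      · rw [eq_mul_inv_iff_mul_eq₀ hdet']
        linear_combination l * hw - m * h1 + m * h2
    have hMsum : ∑ w, M w = p ^ 2 := by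
      have := Finset.card_eq_sum_card_fiberwise (s := (univ : Finset (ZMod p × ZMod p))) (t := univ) (f := ψ)
        (fun q _ => by simp)
      rw [Finset.card_univ, Fintype.card_prod, ZMod.card] at this
      rw [sq]; exact this.symm
    have hMeq : ∀ w, M w = p := by
      have h3 : ∑ w : ZMod p, M w = ∑ _w : ZMod p, p := by
        rw [hMsum, Finset.sum_const, Finset.card_univ, ZMod.card, smul_eq_mul, sq]
      rw [Finset.sum_eq_sum_iff_of_le (fun w _ => hMle w)] at h3
      exact fun w => h3 w (mem_univ _)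
    rw [← Finset.sum_fiberwise univ ψ]
    change ∑ w, ∑ q ∈ univ.filter (fun q => ψ q = w), e (ψ q) = 0
    have h4 : ∀ w : ZMod p, ∑ q ∈ univ.filter (fun q => ψ q = w), e (ψ q) = (p : ℂ) * e w := by
      intro w
      rw [Finset.sum_congr rfl (g := fun _ => e w)]
      · rw [Finset.sum_const, nsmul_eq_mul]
        have := hMeq w
        rw [hM] at this
        simp only at this
        rw [this]
      · intro q hq
        rw [mem_filter] at hq
        rw [hq.2]
    simp_rw [h4]
    rw [← Finset.mul_sum]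
    have h5 := sum_e (1 : ZMod p)
    simp only [mul_one, one_ne_zero, if_false] at h5
    rw [h5, mul_zero]
  have hrow : ∑ x, ‖∑ y, e (F y x + t * y)‖ ^ 2 = (p : ℝ) ^ 2 := by
    have h6 : ((∑ x, ‖∑ y, e (F y x + t * y)‖ ^ 2 : ℝ) : ℂ) = (((p : ℝ) ^ 2 : ℝ) : ℂ) := by
      rw [Complex.ofReal_sum]
      simp_rw [norm_sum_sq]
      have h7 : ∀ x : ZMod p, ∑ q ∈ (univ : Finset (ZMod p)) ×ˢ (univ : Finset (ZMod p)),
          e (F q.1 x + t * q.1 - (F q.2 x + t * q.2)) =
          ∑ r : ZMod p, ∑ y : ZMod p, e (t * r) * e (F (y + r) x - F y x) := by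
        intro x
        rw [Finset.sum_product_right, Finset.sum_comm]
        rw [Finset.sum_comm (s := (univ : Finset (ZMod p))) (t := (univ : Finset (ZMod p))) (f := fun r y => e (t * r) * e (F (y + r) x - F y x))]
        rw [Finset.sum_comm]
        refine Finset.sum_congr rfl fun y _ => ?_
        refine (Fintype.sum_equiv (Equiv.addLeft y) _ _ fun r => ?_).symm
        rw [← e_add]
        simp only [Equiv.coe_addLeft]
        congr 1; ring
      simp_rw [h7]
      rw [Finset.sum_comm]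
      have h8 : ∀ r : ZMod p, ∑ x : ZMod p, ∑ y : ZMod p, e (t * r) * e (F (y + r) x - F y x) =
          if r = 0 then (p : ℂ) ^ 2 else 0 := by
        intro r
        rw [Finset.sum_comm]
        simp_rw [← Finset.mul_sum]
        by_cases hr : r = 0
        · rw [if_pos hr, hr]
          simp [e_zero, sq]
        · rw [if_neg hr]
          have h9 := hinner r hr
          rw [← Finset.univ_product_univ, Finset.sum_product] at h9
          rw [h9, mul_zero]
      simp_rw [h8]
      rw [Finset.sum_ite_eq' univ (0 : ZMod p), if_pos (mem_univ _)]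
      push_cast; ring
    exact_mod_cast h6
  have hP := parseval (fun x => ∑ y, e (F y x + t * y))
  simp_rw [← W_rows] at hP
  rw [hrow] at hP
  obtain ⟨c, hc⟩ := one_count (fun c => ‖W F t c‖ ^ 2) ((p : ℝ) ^ 3) (by positivity) (by
    intro c
    have hmm : m ≠ 0 ∨ m' ≠ 0 := by
      by_contra hno
      push Not at hno
      rw [hno.1, hno.2] at hdet'
      simp at hdet'
    rcases H.1 m m' t c hmm ht with h10 | h10
    · left
      change W F t c = 0 at h10
      rw [h10]; simp
    · right; exact h10) (by rw [hP]; ring)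
  refine ⟨c, fun c' => ?_⟩
  rw [← hc c']
  simp only [ne_eq, OfNat.ofNat_ne_zero, not_false_eq_true, pow_eq_zero_iff, norm_eq_zero]

/-- a row function with exactly one nonzero Fourier coefficient -/
theorem row_of_one (G : ZMod p → ℂ) (c : ZMod p) (h : ∀ c', (∑ x, G x * e (c' * x)) ≠ 0 ↔ c' = c) :
    ∃ K : ℂ, K ≠ 0 ∧ ∀ x, G x = K * e (-(c * x)) := by
  have hp : p.Prime := Fact.out
  have hpC : (p : ℂ) ≠ 0 := by exact_mod_cast hp.ne_zero
  refine ⟨(∑ x, G x * e (c * x)) / p, div_ne_zero ((h c).mpr rfl) hpC, fun x => ?_⟩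
  have h1 := inversion G x
  rw [Finset.sum_eq_single c] at h1
  · field_simp
    rw [mul_comm (G x)]
    exact h1.symm
  · intro c' _ hc'
    have h2 : (∑ x, G x * e (c' * x)) = 0 := by
      by_contra h3
      exact hc' ((h c').mp h3)
    rw [h2, zero_mul]
  · intro h3; exact absurd (mem_univ _) h3

/-- **FIN** -/
theorem fin (hone : ONE) : Pool.Agent.H45.R3.FIN := by
  intro p _ hp2 f g H l l' s h hl hlin hh
  have hp : p.Prime := Fact.out
  have hpR : (1 : ℝ) < p := by exact_mod_cast hp.one_lt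
  by_contra hs
  have h2 : (2 : ZMod p) ≠ 0 := by
    intro h
    have h1 : ((2 : ℕ) : ZMod p) = 0 := by exact_mod_cast h
    rw [ZMod.natCast_eq_zero_iff] at h1
    have := Nat.le_of_dvd (by norm_num) h1
    have := hp.two_le
    omega
  obtain ⟨m, m', hmm⟩ : ∃ m m' : ZMod p, l * m' ≠ l' * m := by
    rcases hl with h | h
    · exact ⟨0, 1, by simpa using h⟩
    · exact ⟨1, 0, by simpa using h.symm⟩
  obtain ⟨c1, hc1⟩ := hone p hp2 f g H l l' s h hl hlin (m + s⁻¹ * l) (m' + s⁻¹ * l') 1 (by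
    intro h3
    apply hmm
    linear_combination h3) one_ne_zero
  obtain ⟨c2, hc2⟩ := hone p hp2 f g H l l' s h hl hlin m m' 2 hmm h2
  simp_rw [W_rows] at hc1 hc2
  obtain ⟨K1, hK1, e1⟩ := row_of_one _ c1 hc1
  obtain ⟨K2, hK2, e2⟩ := row_of_one _ c2 hc2
  have hrel : ∀ x, K1 * e (-(c1 * x)) = e (s⁻¹ * h x) * (K2 * e (-(c2 * x))) := by
    intro x
    rw [← e1 x, ← e2 x, Finset.mul_sum]
    refine Finset.sum_congr rfl fun y _ => ?_
    rw [← e_add]
    congr 1
    have h3 := hlin y x
    have h4 : s⁻¹ * (l * f y x + l' * g y x) = y + s⁻¹ * h x := by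
      rw [h3]; field_simp
    linear_combination h4
  have h0 := hrel 0
  simp only [mul_zero, neg_zero, e_zero, mul_one] at h0
  have haff : ∀ x, h x = h 0 + s * ((c2 - c1) * x) := by
    intro x
    have h5 := hrel x
    rw [h0] at h5
    have h6 : e (s⁻¹ * h 0 + -(c1 * x)) = e (s⁻¹ * h x + -(c2 * x)) := by
      rw [e_add, e_add]
      apply mul_right_cancel₀ hK2
      linear_combination h5
    have h7 := e_inj h6
    have h8 : s * (s⁻¹ * h 0 + -(c1 * x)) = s * (s⁻¹ * h x + -(c2 * x)) := by rw [h7]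
    have h9 : s * s⁻¹ = 1 := mul_inv_cancel₀ hs
    linear_combination (-1 : ZMod p) * h8 + (h x - h 0) * (-h9) + 2 * (h x - h 0) * (h9) - 2 * (h x - h 0) * h9
  have h10 := hh (-(s * (c2 - c1)))
  have h11 : ∀ x, e (h x + -(s * (c2 - c1)) * x) = e (h 0) := by
    intro x
    congr 1
    rw [haff x]; ring
  simp_rw [h11] at h10
  rw [Finset.sum_const, Finset.card_univ, ZMod.card, nsmul_eq_mul, norm_mul, norm_e, Complex.norm_natCast, mul_one] at h10
  nlinarith

end Pool.Agent.H15.R3
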